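import Pool.Agent.helper81.CX.Spec2

/-!
# Project cx, row AVC: constraint (A) in the mean
-/

set_option autoImplicit false

open MeasureTheory Set Filter Topology
open scoped ENNReal
open Pool.Agent.helper81.CW

namespace Pool.Agent.CX

theorem AVC_neg {F : Type*} [NormedAddCommGroup F] [NormedSpace ℝ F] (hG1 : G1_stmt) (n : ℕ) (f : E n → F) :
    ∫ x, f (-x) ∂(gm n) = ∫ x, f x ∂(gm n) :=
  MeasurePreserving.integral_comp (f := fun x : E n => -x) ⟨measurable_neg, (hG1 n).2⟩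
    (MeasurableEquiv.neg (E n)).measurableEmbedding f

theorem AVC_odd {F : Type*} [NormedAddCommGroup F] [NormedSpace ℝ F] (hG1 : G1_stmt) (n : ℕ) (f : E n → F)
    (hf : ∀ x, f (-x) = -f x) : ∫ x, f x ∂(gm n) = 0 := by
  have h := AVC_neg hG1 n f
  simp only [hf, integral_neg] at h
  have h2 : (2 : ℝ) • ∫ x, f x ∂(gm n) = 0 := by
    rw [two_smul]
    nth_rewrite 1 [← h]
    simp
  simpa using h2

/-- the second moment -/
theorem AVC_sq (hG1 : G1_stmt) (hG4 : G4_stmt) (n : ℕ) (hn : 1 ≤ n) :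
    Integrable (fun x : E n => ‖x‖ ^ 2) (gm n) ∧ ∫ x : E n, ‖x‖ ^ 2 ∂(gm n) = n := by
  have := (hG1 n).1
  have h := hG4 n (fun _ => 1) 1 measurable_const (fun x => by simp) (fun x t ht => rfl)
  have h1 : ∫ x : E n, ‖x‖ ^ 2 ∂(gm n) = n := by
    simpa using h
  refine ⟨?_, h1⟩
  by_contra hne
  rw [integral_undef hne] at h1
  have h2 : (0 : ℝ) < n := by exact_mod_cast hn
  linarith

/-- almost no point is zero -/
theorem AVC_ae (n : ℕ) (hn : 1 ≤ n) : ∀ᵐ x : E n ∂(gm n), x ≠ 0 := by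
  have : Nonempty (Fin n) := ⟨⟨0, hn⟩⟩
  have hnt : Nontrivial (E n) := by
    infer_instance
  have h1 : ∀ᵐ x : E n, x ≠ 0 := by
    rw [ae_iff]
    simp
  exact (withDensity_absolutelyContinuous _ _).ae_le h1

/-- the pointwise inequality -/
theorem AVC_pt {n : ℕ} (hn : 1 ≤ n) (y m x : E n) (hx : x ≠ 0) (h : ‖y - (m + (1 / 2 : ℝ) • un x)‖ ≤ 1) :
    ‖y‖ ^ 2 + ‖m‖ ^ 2 + ‖x‖ ^ 2 / (4 * n) - 2 * inner ℝ y m - inner ℝ y x / Real.sqrt n + inner ℝ m x / Real.sqrt n ≤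
      1 + |‖x‖ / Real.sqrt n - 1| + (‖x‖ / Real.sqrt n - 1) ^ 2 / 4 := by
  have hn0 : (0 : ℝ) < n := by exact_mod_cast hn
  have hs : 0 < Real.sqrt n := Real.sqrt_pos.2 hn0
  have hx0 : 0 < ‖x‖ := norm_pos_iff.2 hx
  set δ : ℝ := |‖x‖ / Real.sqrt n - 1| with hδ
  -- the distance of the two vectors
  have h1 : ‖(1 / 2 : ℝ) • un x - (1 / (2 * Real.sqrt n)) • x‖ = δ / 2 := by
    have e : (1 / 2 : ℝ) • un x - (1 / (2 * Real.sqrt n)) • x = (1 / 2 * ‖x‖⁻¹ - 1 / (2 * Real.sqrt n)) • x := by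
      unfold un
      rw [smul_smul, ← sub_smul]
    rw [e, norm_smul, Real.norm_eq_abs, hδ]
    have e2 : (1 / 2 * ‖x‖⁻¹ - 1 / (2 * Real.sqrt n)) = -(‖x‖ / Real.sqrt n - 1) / (2 * ‖x‖) := by
      field_simp
      ring
    rw [e2, abs_div, abs_neg, abs_of_pos (by positivity : (0 : ℝ) < 2 * ‖x‖)]
    field_simp
  have h2 : ‖y - m - (1 / (2 * Real.sqrt n)) • x‖ ≤ 1 + δ / 2 := by
    have e : y - m - (1 / (2 * Real.sqrt n)) • x = (y - (m + (1 / 2 : ℝ) • un x)) +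
        ((1 / 2 : ℝ) • un x - (1 / (2 * Real.sqrt n)) • x) := by abel
    rw [e]
    exact (norm_add_le _ _).trans (by rw [h1]; linarith)
  have h3 : ‖y - m - (1 / (2 * Real.sqrt n)) • x‖ ^ 2 = ‖y‖ ^ 2 + ‖m‖ ^ 2 + ‖x‖ ^ 2 / (4 * n) - 2 * inner ℝ y m -
      inner ℝ y x / Real.sqrt n + inner ℝ m x / Real.sqrt n := by
    rw [norm_sub_sq_real, norm_sub_sq_real, norm_smul, inner_smul_right, inner_sub_left, mul_pow, Real.norm_eq_abs, sq_abs,
      div_pow, mul_pow, Real.sq_sqrt hn0.le]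
    field_simp
    ring
  rw [← h3]
  have h4 : 0 ≤ δ := abs_nonneg _
  have h5 : (‖x‖ / Real.sqrt n - 1) ^ 2 = δ ^ 2 := by rw [hδ, sq_abs]
  rw [h5]
  have h6 := norm_nonneg (y - m - (1 / (2 * Real.sqrt n)) • x)
  nlinarith

theorem AVC (hG1 : G1_stmt) (hG4 : G4_stmt) (hROM : ROM_stmt) (hCRB : CRB_stmt) (hCRX : CRX_stmt) (hNRQ : NRQ_stmt) :
    AVC_stmt := by
  intro n C M y c hn hM hC hym hyC hy1 hc0 hc1
  have := (hG1 n).1
  have hn0 : (0 : ℝ) < n := by exact_mod_cast hn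
  have hs : 0 < Real.sqrt n := Real.sqrt_pos.2 hn0
  obtain ⟨hsqi, hsq⟩ := AVC_sq hG1 hG4 n hn
  obtain ⟨hqi, hq⟩ := hNRQ n hn
  have hnorm : Integrable (fun x : E n => ‖x‖) (gm n) := by
    refine Integrable.mono' ((integrable_const (1 : ℝ)).add hsqi) continuous_norm.aestronglyMeasurable
      (Eventually.of_forall fun x => ?_)
    rw [norm_norm]
    show ‖x‖ ≤ 1 + ‖x‖ ^ 2
    nlinarith [sq_nonneg (‖x‖ - 1), norm_nonneg x]
  have hc2 : 0 ≤ 1 - c ^ 2 := by nlinarith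
  -- the second point
  have hmp : MeasurePreserving (fun p : E n × E n => mix c p.1 p.2) ((gm n).prod (gm n)) (gm n) := by
    refine (hROM n c (Real.sqrt (1 - c ^ 2)) ?_).2
    rw [Real.sq_sqrt hc2]
    ring
  have hMy : BM M := ⟨hM.meas, fun x => (hM.bdd x).trans (by norm_num)⟩
  have hyB : BM y := ⟨hym, fun x => (hy1 x).trans (by norm_num)⟩
  -- measurability
  have m1 : Measurable fun p : E n × E n => y p.1 := hym.comp measurable_fst
  have m2 : Measurable fun p : E n × E n => mix c p.1 p.2 := hmp.measurable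
  have m3 : Measurable fun p : E n × E n => M (mix c p.1 p.2) := hM.meas.comp m2
  -- integrable functions on the product
  have i1 : Integrable (fun p : E n × E n => ‖y p.1‖ ^ 2) ((gm n).prod (gm n)) := by
    refine Integrable.of_bound (m1.norm.pow_const 2).aestronglyMeasurable 1 (Eventually.of_forall fun p => ?_)
    rw [Real.norm_eq_abs, abs_of_nonneg (by positivity)]
    have h1 := hy1 p.1
    have h2 := norm_nonneg (y p.1)
    nlinarith
  have i2 : Integrable (fun p : E n × E n => ‖M (mix c p.1 p.2)‖ ^ 2) ((gm n).prod (gm n)) := by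
    refine Integrable.of_bound (m3.norm.pow_const 2).aestronglyMeasurable 1 (Eventually.of_forall fun p => ?_)
    rw [Real.norm_eq_abs, abs_of_nonneg (by positivity)]
    have h1 := hM.bdd (mix c p.1 p.2)
    have h2 := norm_nonneg (M (mix c p.1 p.2))
    nlinarith
  have i3 : Integrable (fun p : E n × E n => ‖mix c p.1 p.2‖ ^ 2) ((gm n).prod (gm n)) :=
    hmp.integrable_comp_of_integrable hsqi
  have inx : Integrable (fun p : E n × E n => ‖mix c p.1 p.2‖) ((gm n).prod (gm n)) :=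
    hmp.integrable_comp_of_integrable hnorm
  have i4 : Integrable (fun p : E n × E n => (inner ℝ (y p.1) (M (mix c p.1 p.2)) : ℝ)) ((gm n).prod (gm n)) := by
    refine Integrable.of_bound (m1.inner m3).aestronglyMeasurable 1 (Eventually.of_forall fun p => ?_)
    refine (norm_inner_le_norm (𝕜 := ℝ) _ _).trans ?_
    have h1 := hM.bdd (mix c p.1 p.2)
    have h2 := norm_nonneg (M (mix c p.1 p.2))
    have h3 := hy1 p.1
    have h4 := norm_nonneg (y p.1)
    nlinarith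
  have i5 : Integrable (fun p : E n × E n => (inner ℝ (y p.1) (mix c p.1 p.2) : ℝ)) ((gm n).prod (gm n)) := by
    refine Integrable.mono' inx (m1.inner m2).aestronglyMeasurable (Eventually.of_forall fun p => ?_)
    refine (norm_inner_le_norm (𝕜 := ℝ) _ _).trans ?_
    have h3 := hy1 p.1
    have h4 := norm_nonneg (mix c p.1 p.2)
    nlinarith
  have i6' : Integrable (fun x : E n => (inner ℝ (M x) x : ℝ)) (gm n) := by
    refine Integrable.mono' hnorm (hM.meas.inner measurable_id).aestronglyMeasurable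
      (Eventually.of_forall fun x => ?_)
    refine (norm_inner_le_norm (𝕜 := ℝ) _ _).trans ?_
    have h3 := hM.bdd x
    have h4 := norm_nonneg x
    show ‖M x‖ * ‖x‖ ≤ ‖x‖
    nlinarith
  have i6 : Integrable (fun p : E n × E n => (inner ℝ (M (mix c p.1 p.2)) (mix c p.1 p.2) : ℝ))
      ((gm n).prod (gm n)) := hmp.integrable_comp_of_integrable i6'
  have i7' : Integrable (fun x : E n => |‖x‖ / Real.sqrt n - 1|) (gm n) := by
    exact ((hnorm.div_const _).sub (integrable_const 1)).abs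
  have i7 : Integrable (fun p : E n × E n => |‖mix c p.1 p.2‖ / Real.sqrt n - 1|) ((gm n).prod (gm n)) :=
    hmp.integrable_comp_of_integrable i7'
  have i8 : Integrable (fun p : E n × E n => (‖mix c p.1 p.2‖ / Real.sqrt n - 1) ^ 2) ((gm n).prod (gm n)) :=
    hmp.integrable_comp_of_integrable hqi
  -- the integrals
  have hcomp : ∀ f : E n → ℝ, Integrable f (gm n) →
      ∫ p : E n × E n, f (mix c p.1 p.2) ∂((gm n).prod (gm n)) = ∫ x, f x ∂(gm n) := by
    intro f hf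
    have h1 := hmp.map_eq
    have h2 := integral_map (f := f) hmp.measurable.aemeasurable (by rw [h1]; exact hf.aestronglyMeasurable)
    rw [h1] at h2
    exact h2.symm
  have e1 : ∫ p : E n × E n, ‖y p.1‖ ^ 2 ∂((gm n).prod (gm n)) = ∫ x, ‖y x‖ ^ 2 ∂(gm n) := by
    rw [integral_prod _ i1]
    simp
  have i2' : Integrable (fun x : E n => ‖M x‖ ^ 2) (gm n) := by
    refine Integrable.of_bound (hM.meas.norm.pow_const 2).aestronglyMeasurable 1 (Eventually.of_forall fun x => ?_)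
    rw [Real.norm_eq_abs, abs_of_nonneg (by positivity)]
    have h1 := hM.bdd x
    have h2 := norm_nonneg (M x)
    nlinarith
  have e2 := hcomp _ i2'
  have e3 := hcomp _ hsqi
  have e4 : ∫ p : E n × E n, (inner ℝ (y p.1) (M (mix c p.1 p.2)) : ℝ) ∂((gm n).prod (gm n)) = CR y M c := by
    rw [integral_prod _ i4]
    rfl
  have e5 : ∫ p : E n × E n, (inner ℝ (y p.1) (mix c p.1 p.2) : ℝ) ∂((gm n).prod (gm n)) =
      c * ∫ x, inner ℝ (y x) x ∂(gm n) := by
    rw [integral_prod _ i5]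
    exact (hCRX n y c hyB (by rw [abs_of_pos hc0]; exact hc1.le)).1
  have e6 : ∫ p : E n × E n, (inner ℝ (M (mix c p.1 p.2)) (mix c p.1 p.2) : ℝ) ∂((gm n).prod (gm n)) = 0 := by
    rw [hcomp _ i6']
    refine AVC_odd hG1 n _ fun x => ?_
    rw [hM.even, inner_neg_right]
  have e7 := hcomp _ i7'
  have e8 := hcomp _ hqi
  -- the pointwise inequality
  have hae : ∀ᵐ p : E n × E n ∂((gm n).prod (gm n)), mix c p.1 p.2 ≠ 0 := by
    have h1 := AVC_ae n hn
    exact hmp.quasiMeasurePreserving.ae h1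
  have j3 : Integrable (fun p : E n × E n => ‖mix c p.1 p.2‖ ^ 2 / (4 * n)) ((gm n).prod (gm n)) := i3.div_const _
  have j4 : Integrable (fun p : E n × E n => 2 * (inner ℝ (y p.1) (M (mix c p.1 p.2)) : ℝ)) ((gm n).prod (gm n)) :=
    i4.const_mul 2
  have j5 : Integrable (fun p : E n × E n => (inner ℝ (y p.1) (mix c p.1 p.2) : ℝ) / Real.sqrt n)
    ((gm n).prod (gm n)) := i5.div_const _
  have j6 : Integrable (fun p : E n × E n => (inner ℝ (M (mix c p.1 p.2)) (mix c p.1 p.2) : ℝ) / Real.sqrt n)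
    ((gm n).prod (gm n)) := i6.div_const _
  have k2 : Integrable (fun p : E n × E n => ‖y p.1‖ ^ 2 + ‖M (mix c p.1 p.2)‖ ^ 2) ((gm n).prod (gm n)) :=
    i1.add i2
  have k3 : Integrable (fun p : E n × E n => ‖y p.1‖ ^ 2 + ‖M (mix c p.1 p.2)‖ ^ 2 + ‖mix c p.1 p.2‖ ^ 2 / (4 * n))
    ((gm n).prod (gm n)) := k2.add j3
  have k4 : Integrable (fun p : E n × E n => ‖y p.1‖ ^ 2 + ‖M (mix c p.1 p.2)‖ ^ 2 + ‖mix c p.1 p.2‖ ^ 2 / (4 * n) -
    2 * (inner ℝ (y p.1) (M (mix c p.1 p.2)) : ℝ)) ((gm n).prod (gm n)) := k3.sub j4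
  have k5 : Integrable (fun p : E n × E n => ‖y p.1‖ ^ 2 + ‖M (mix c p.1 p.2)‖ ^ 2 + ‖mix c p.1 p.2‖ ^ 2 / (4 * n) -
    2 * (inner ℝ (y p.1) (M (mix c p.1 p.2)) : ℝ) - (inner ℝ (y p.1) (mix c p.1 p.2) : ℝ) / Real.sqrt n)
    ((gm n).prod (gm n)) := k4.sub j5
  have j7 : Integrable (fun p : E n × E n => 1 + |‖mix c p.1 p.2‖ / Real.sqrt n - 1|) ((gm n).prod (gm n)) :=
    (integrable_const 1).add i7
  have j8 : Integrable (fun p : E n × E n => (‖mix c p.1 p.2‖ / Real.sqrt n - 1) ^ 2 / 4) ((gm n).prod (gm n)) :=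
    i8.div_const _
  have hmono : ∫ p : E n × E n, (‖y p.1‖ ^ 2 + ‖M (mix c p.1 p.2)‖ ^ 2 + ‖mix c p.1 p.2‖ ^ 2 / (4 * n) -
      2 * inner ℝ (y p.1) (M (mix c p.1 p.2)) - inner ℝ (y p.1) (mix c p.1 p.2) / Real.sqrt n +
      inner ℝ (M (mix c p.1 p.2)) (mix c p.1 p.2) / Real.sqrt n) ∂((gm n).prod (gm n)) ≤
      ∫ p : E n × E n, (1 + |‖mix c p.1 p.2‖ / Real.sqrt n - 1| + (‖mix c p.1 p.2‖ / Real.sqrt n - 1) ^ 2 / 4)
        ∂((gm n).prod (gm n)) := by
    refine integral_mono_ae ?_ ?_ ?_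
    · exact k5.add j6
    · exact j7.add j8
    · filter_upwards [hae] with p hp
      exact AVC_pt hn _ _ _ hp (hC _ hp _ (hyC p.1))
  have hL : ∫ p : E n × E n, (‖y p.1‖ ^ 2 + ‖M (mix c p.1 p.2)‖ ^ 2 + ‖mix c p.1 p.2‖ ^ 2 / (4 * n) -
      2 * inner ℝ (y p.1) (M (mix c p.1 p.2)) - inner ℝ (y p.1) (mix c p.1 p.2) / Real.sqrt n +
      inner ℝ (M (mix c p.1 p.2)) (mix c p.1 p.2) / Real.sqrt n) ∂((gm n).prod (gm n)) =
      (∫ x, ‖y x‖ ^ 2 ∂(gm n)) + (∫ x, ‖M x‖ ^ 2 ∂(gm n)) + n / (4 * n) - 2 * CR y M c -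
        (c * ∫ x, inner ℝ (y x) x ∂(gm n)) / Real.sqrt n + 0 / Real.sqrt n := by
    rw [integral_add k5 j6, integral_sub k4 j5, integral_sub k3 j4, integral_add k2 j3, integral_add i1 i2,
      integral_div, integral_div, integral_div, integral_const_mul, e1, e2, e3, e4, e5, e6, hsq]
  have hR : ∫ p : E n × E n, (1 + |‖mix c p.1 p.2‖ / Real.sqrt n - 1| + (‖mix c p.1 p.2‖ / Real.sqrt n - 1) ^ 2 / 4)
        ∂((gm n).prod (gm n)) = 1 + (∫ x : E n, |‖x‖ / Real.sqrt n - 1| ∂(gm n)) +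
        (∫ x : E n, (‖x‖ / Real.sqrt n - 1) ^ 2 ∂(gm n)) / 4 := by
    rw [integral_add j7 j8, integral_add (integrable_const 1) i7, integral_div, e7, e8]
    simp
  -- the mean of the absolute value
  have habs : ∫ x : E n, |‖x‖ / Real.sqrt n - 1| ∂(gm n) ≤ (1 / Real.sqrt n + Real.sqrt n * (2 / n)) / 2 := by
    have h1 : ∫ x : E n, |‖x‖ / Real.sqrt n - 1| ∂(gm n) ≤
        ∫ x : E n, ((1 / Real.sqrt n + Real.sqrt n * (‖x‖ / Real.sqrt n - 1) ^ 2) / 2) ∂(gm n) := by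
      refine integral_mono i7' (((integrable_const _).add (hqi.const_mul _)).div_const _) fun x => ?_
      show |‖x‖ / Real.sqrt n - 1| ≤ (1 / Real.sqrt n + Real.sqrt n * (‖x‖ / Real.sqrt n - 1) ^ 2) / 2
      rw [← sq_abs (‖x‖ / Real.sqrt n - 1)]
      set δ := |‖x‖ / Real.sqrt n - 1|
      have h2 : 0 ≤ (1 / Real.sqrt n) * (1 - Real.sqrt n * δ) ^ 2 := by positivity
      have h3 : (1 / Real.sqrt n) * (1 - Real.sqrt n * δ) ^ 2 = 1 / Real.sqrt n - 2 * δ + Real.sqrt n * δ ^ 2 := by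
        field_simp
        ring
      linarith
    have h2 : ∫ x : E n, ((1 / Real.sqrt n + Real.sqrt n * (‖x‖ / Real.sqrt n - 1) ^ 2) / 2) ∂(gm n) =
        (1 / Real.sqrt n + Real.sqrt n * ∫ x : E n, (‖x‖ / Real.sqrt n - 1) ^ 2 ∂(gm n)) / 2 := by
      rw [integral_div, integral_add (integrable_const _) (hqi.const_mul _), integral_const_mul]
      simp
    rw [h2] at h1
    have h3 : Real.sqrt n * ∫ x : E n, (‖x‖ / Real.sqrt n - 1) ^ 2 ∂(gm n) ≤ Real.sqrt n * (2 / n) :=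
      mul_le_mul_of_nonneg_left hq hs.le
    linarith
  rw [hL, hR] at hmono
  have hnn : (n : ℝ) / (4 * n) = 1 / 4 := by field_simp
  rw [hnn, zero_div, add_zero] at hmono
  have hsn : Real.sqrt n * (2 / n) = 2 / Real.sqrt n := by
    have h1 : (n : ℝ) = Real.sqrt n * Real.sqrt n := (Real.mul_self_sqrt hn0.le).symm
    rw [show Real.sqrt n * (2 / (n : ℝ)) = Real.sqrt n * (2 / (Real.sqrt n * Real.sqrt n)) by rw [← h1]]
    field_simp
  have h14 : (2 : ℝ) / n / 4 ≤ 1 / (2 * Real.sqrt n) := by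
    have h1 : Real.sqrt n ≤ n := by
      rw [Real.sqrt_le_left hn0.le]
      have : (1 : ℝ) ≤ n := by exact_mod_cast hn
      nlinarith
    rw [div_div, div_le_div_iff₀ (by positivity) (by positivity)]
    nlinarith
  have h9 : (∫ x : E n, (‖x‖ / Real.sqrt n - 1) ^ 2 ∂(gm n)) / 4 ≤ 1 / (2 * Real.sqrt n) :=
    (div_le_div_of_nonneg_right hq (by norm_num)).trans h14
  rw [hsn] at habs
  have h10 : (1 / Real.sqrt n + 2 / Real.sqrt n) / 2 + 1 / (2 * Real.sqrt n) = 2 / Real.sqrt n := by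
    field_simp
    ring
  linarith

end Pool.Agent.CX
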